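import Mathlib
import Pool.Agent.helper99.VN.SpecU

/-!
# RCLN (project VN, MP_07c750_an): two chains with the same state stay close
-/

set_option autoImplicit false

open scoped MatrixGroups ContDiff Topology UpperHalfPlane ComplexConjugate ENNReal
open UpperHalfPlane MeasureTheory Filter Set

namespace Pool.Agent.VN

open Pool.Agent.RS Pool.Agent.VQ
open Pool.Agent.RPQ (Net Cl)

noncomputable section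

theorem RCLN_k0 : kM 0 = 1 := by
  apply Subtype.ext
  ext i j
  fin_cases i <;> fin_cases j <;> simp [kM]

/-- six small boxes -/
theorem RCLN_six (hBOXN : BOXN_stmt) {δ : ℝ} (h0 : 0 < δ) (h1 : δ ≤ 1 / 100) {b1 b2 b3 b4 b5 b6 : SL(2, ℝ)}
    (k1 : b1 ∈ Bo δ) (k2 : b2 ∈ Bo δ) (k3 : b3 ∈ Bo δ) (k4 : b4 ∈ Bo δ) (k5 : b5 ∈ Bo δ) (k6 : b6 ∈ Bo δ) :
    b1 * b2 * (b3 * b4) * (b5 * b6) ∈ Bo (10 * δ) := by
  obtain ⟨-, hmono, hmul, -⟩ := hBOXN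
  have a1 : b1 * b2 ∈ Bo (21 / 10 * δ) := hmono _ _ _ (by nlinarith) (hmul δ δ b1 b2 h0 h0 k1 k2)
  have a2 : b3 * b4 ∈ Bo (21 / 10 * δ) := hmono _ _ _ (by nlinarith) (hmul δ δ b3 b4 h0 h0 k3 k4)
  have a3 : b5 * b6 ∈ Bo (21 / 10 * δ) := hmono _ _ _ (by nlinarith) (hmul δ δ b5 b6 h0 h0 k5 k6)
  have a4 : b1 * b2 * (b3 * b4) ∈ Bo (5 * δ) := hmono _ _ _ (by nlinarith) (hmul _ _ _ _ (by linarith) (by linarith) a1 a2)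
  exact hmono _ _ _ (by nlinarith) (hmul _ _ _ _ (by linarith) (by linarith) a4 a3)

theorem RCLN_tel {G : Type*} [Group G] (a b c d e f g : G) :
    a⁻¹ * g = (a⁻¹ * b) * (b⁻¹ * c) * ((c⁻¹ * d) * (d⁻¹ * e)) * ((e⁻¹ * f) * (f⁻¹ * g)) := by
  group

/-- the case `s' ≤ s''` -/
theorem RCLN_main (hFLBN : FLBN_stmt) (hBOXN : BOXN_stmt) {Γ : Subgroup SL(2, ℝ)} {k : ℝ} {B : ℕ → ℝ} (hΓ : QU.SurfaceGroup Γ)
    {D : Dyn} (hD : OKN Γ k B D) {C C2 C3 δ ρ1 t r e1 Λ : ℝ} {N : ℕ} {w w' w'' : ℕ → SL(2, ℝ) × ℝ} (hC : 1 ≤ C) (hδ0 : 0 < δ) (hδ1 : δ ≤ 1 / 100)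
    (hC3 : C3 * ρ1 ^ (1 / 2 : ℝ) ≤ δ) (hCe : C * e1 ≤ δ) (he1 : e1 ≤ 1) (he0 : 0 < e1) (hCρ : Real.exp C ≤ ρ1 ^ (-(1 / 2) : ℝ))
    (h1 : ∀ (x y : SL(2, ℝ)) (s : ℝ) (i : ℕ), Real.exp (C * |s|) ≤ ρ1 ^ (-(1 / 2) : ℝ) → EN.nr (C2 * ρ1) (x⁻¹ * y * kM (i * (Real.pi / 2))) → (D.fl 0 s x)⁻¹ * D.fl 0 s (y * kM (i * (Real.pi / 2))) ∈ Bo (C3 * ρ1 ^ (1 / 2 : ℝ)))
    (h2 : ∀ (y : SL(2, ℝ)) (s v u : ℝ) (i : ℕ), |v| ≤ u → 0 < u → u ≤ 1 → (D.fl 0 s (D.fl 0 v y * kM (i * (Real.pi / 2))))⁻¹ * D.fl 0 s (y * kM (i * (Real.pi / 2))) ∈ Bo (C * u))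
    (h3 : ∀ (t r : ℝ) (N : ℕ) (w : ℕ → SL(2, ℝ) × ℝ), 1 ≤ t → 0 < r → r ≤ ρ1 → JP D t r N w → ∀ (s v x : ℝ) (i : ℕ), 0 ≤ s → 0 ≤ v → v ≤ t → s + v ≤ N * t → Real.exp (C * v) ≤ ρ1 ^ (-(1 / 2) : ℝ) → Real.exp (C * |x|) ≤ ρ1 ^ (-(1 / 2) : ℝ) → v = 0 ∨ x = 0 ∨ v ≤ 1 →
      (D.fl 0 x (frZ D t w (s + v) * kM (i * (Real.pi / 2))))⁻¹ * D.fl 0 x (D.fl 0 v (frZ D t w s) * kM (i * (Real.pi / 2))) ∈ Bo (C3 * ρ1 ^ (1 / 2 : ℝ)))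
    (ht : 1 ≤ t) (hr0 : 0 < r) (hr : r ≤ ρ1) (hw : JP D t r N w) (hw' : JP D t r N w') (hw'' : JP D t r N w'')
    {i : ℕ} {v : ℝ} {γ : Γ} {m : ℕ} {s' s'' : ℝ} (hΛ : 0 < Λ) (hΛt : Λ ≤ t) (hΛC : Real.exp (C * Λ) ≤ ρ1 ^ (-(1 / 2) : ℝ)) (hv0 : 0 ≤ v) (hv : v ≤ Λ) (hiv : i * Λ + v ≤ N * t)
    (hs0 : 0 ≤ s') (hss : s' ≤ s'') (hs1 : s'' < N * t) (hsd : s'' - s' < e1)
    (hn' : EN.nr (C2 * ρ1) ((frZ D t w' (i * Λ))⁻¹ * ((γ : SL(2, ℝ)) * frZ D t w s') * kM (m * (Real.pi / 2))))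
    (hn'' : EN.nr (C2 * ρ1) ((frZ D t w'' (i * Λ))⁻¹ * ((γ : SL(2, ℝ)) * frZ D t w s'') * kM (m * (Real.pi / 2)))) :
    (frZ D t w' (i * Λ + v))⁻¹ * frZ D t w'' (i * Λ + v) ∈ Bo (10 * δ) := by
  obtain ⟨-, hmono, -, hinv, -⟩ := id hBOXN
  have hk : 0 < k := hD.pot.kpos.1
  obtain ⟨hadd, heq, -⟩ := hFLBN Γ k B D hΓ hD 0 (by rw [abs_zero]; exact hk.le)
  have hCv : Real.exp (C * v) ≤ ρ1 ^ (-(1 / 2) : ℝ) :=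
    (Real.exp_le_exp.2 (mul_le_mul_of_nonneg_left hv (by linarith))).trans hΛC
  have hCv' : Real.exp (C * |v|) ≤ ρ1 ^ (-(1 / 2) : ℝ) := by rwa [abs_of_nonneg hv0]
  have hC0 : Real.exp (C * |(0 : ℝ)|) ≤ ρ1 ^ (-(1 / 2) : ℝ) := by
    rw [abs_zero]
    exact (Real.exp_le_exp.2 (mul_le_mul_of_nonneg_left hv0 (by linarith))).trans hCv
  have hiΛ : (0 : ℝ) ≤ i * Λ := mul_nonneg (Nat.cast_nonneg _) hΛ.le
  -- the jump along a chain, without rotation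
  have step : ∀ w0 : ℕ → SL(2, ℝ) × ℝ, JP D t r N w0 → (frZ D t w0 (i * Λ + v))⁻¹ * D.fl 0 v (frZ D t w0 (i * Λ)) ∈ Bo δ := by
    intro w0 hw0
    have a1 := h3 t r N w0 ht hr0 hr hw0 (i * Λ) v 0 0 hiΛ hv0 (hv.trans hΛt) hiv hCv hC0 (Or.inr (Or.inl rfl))
    rw [Nat.cast_zero, zero_mul, RCLN_k0, mul_one, mul_one, hD.fl0, hD.fl0] at a1
    exact hmono _ _ _ hC3 a1
  have j1 : (frZ D t w' (i * Λ + v))⁻¹ * D.fl 0 v (frZ D t w' (i * Λ)) ∈ Bo δ := step w' hw'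
  have j6 : (D.fl 0 v (frZ D t w'' (i * Λ)))⁻¹ * frZ D t w'' (i * Λ + v) ∈ Bo δ := by
    have a1 := hinv _ _ (step w'' hw'')
    rwa [mul_inv_rev, inv_inv] at a1
  have j2 : (D.fl 0 v (frZ D t w' (i * Λ)))⁻¹ * D.fl 0 v ((γ : SL(2, ℝ)) * frZ D t w s' * kM (m * (Real.pi / 2))) ∈ Bo δ :=
    hmono _ _ _ hC3 (h1 _ _ v m hCv' hn')
  have j5 : (D.fl 0 v ((γ : SL(2, ℝ)) * frZ D t w s'' * kM (m * (Real.pi / 2))))⁻¹ * D.fl 0 v (frZ D t w'' (i * Λ)) ∈ Bo δ := by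
    have a1 := hinv _ _ (hmono _ _ _ hC3 (h1 _ _ v m hCv' hn''))
    rwa [mul_inv_rev, inv_inv] at a1
  have hu0 : 0 ≤ s'' - s' := by linarith
  have j3 : (D.fl 0 v ((γ : SL(2, ℝ)) * frZ D t w s' * kM (m * (Real.pi / 2))))⁻¹ *
      D.fl 0 v (D.fl 0 (s'' - s') ((γ : SL(2, ℝ)) * frZ D t w s') * kM (m * (Real.pi / 2))) ∈ Bo δ := by
    have a1 := hinv _ _ (hmono _ _ _ hCe (h2 ((γ : SL(2, ℝ)) * frZ D t w s') v (s'' - s') e1 m (by rw [abs_of_nonneg hu0]; exact hsd.le) he0 he1))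
    rwa [mul_inv_rev, inv_inv] at a1
  have j4 : (D.fl 0 v (D.fl 0 (s'' - s') ((γ : SL(2, ℝ)) * frZ D t w s') * kM (m * (Real.pi / 2))))⁻¹ *
      D.fl 0 v ((γ : SL(2, ℝ)) * frZ D t w s'' * kM (m * (Real.pi / 2))) ∈ Bo δ := by
    have hCu : Real.exp (C * (s'' - s')) ≤ ρ1 ^ (-(1 / 2) : ℝ) := by
      refine le_trans (Real.exp_le_exp.2 ?_) hCρ
      nlinarith
    have a1 := h3 t r N w ht hr0 hr hw s' (s'' - s') v m hs0 hu0 (by linarith) (by linarith) hCu hCv' (Or.inr (Or.inr (by linarith)))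
    rw [show s' + (s'' - s') = s'' by ring] at a1
    have a2 := hinv _ _ (hmono _ _ _ hC3 a1)
    rw [mul_inv_rev, inv_inv] at a2
    rw [heq γ (s'' - s') (frZ D t w s'), mul_assoc (γ : SL(2, ℝ)), heq γ v, mul_assoc (γ : SL(2, ℝ)) (frZ D t w s''), heq γ v,
      mul_inv_rev, mul_assoc, inv_mul_cancel_left]
    exact a2
  have hsix := RCLN_six hBOXN hδ0 hδ1 j1 j2 j3 j4 j5 j6
  rw [← RCLN_tel] at hsix
  exact hsix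

theorem RCLN_proof (hCNVN : CNVN_stmt) (hFLBN : FLBN_stmt) (hBOXN : BOXN_stmt) : RCLN_stmt := by
  intro Γ k B hΓ hk
  obtain ⟨C, hC, hCN⟩ := hCNVN Γ k B hΓ hk
  refine ⟨C, hC, ?_⟩
  intro eps heps
  obtain ⟨δ, hδ⟩ : ∃ δ : ℝ, δ = min (1 / 100) (eps / 10) := ⟨_, rfl⟩
  have hδ0 : 0 < δ := by rw [hδ]; exact lt_min (by norm_num) (by linarith)
  have hδ1 : δ ≤ 1 / 100 := by rw [hδ]; exact min_le_left _ _
  have hδ2 : 10 * δ ≤ eps := by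
    have h1 : δ ≤ eps / 10 := by rw [hδ]; exact min_le_right _ _
    linarith
  refine ⟨δ / C, by positivity, ?_, ?_⟩
  · rw [div_le_one (by linarith)]
    linarith
  intro C2 hC2
  obtain ⟨C3, ρ10, hC3, hρ0, hρ8, hρk, hN⟩ := hCN C2 hC2
  refine ⟨min ρ10 (min (Real.exp (-(2 * C))) ((δ / C3) ^ 2)), ?_, (min_le_left _ _).trans hρ8, ?_⟩
  · exact lt_min hρ0 (lt_min (Real.exp_pos _) (by positivity))
  intro D ρ1 t r e1 Λ N w w' w'' hD hN1 hr0 hr hρ1 ht he0 he1 hΛ hΛt hΛC hw hw' hw'' i v a hv0 hv hiv hst' hst''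
  have hρp : 0 < ρ1 := lt_of_lt_of_le hr0 hr
  obtain ⟨c1, c2, c3⟩ := hN D ρ1 hD hρp (hρ1.trans (min_le_left _ _))
  have hee : ρ1 ≤ Real.exp (-(2 * C)) := hρ1.trans ((min_le_right _ _).trans (min_le_left _ _))
  have hdd : ρ1 ≤ (δ / C3) ^ 2 := hρ1.trans ((min_le_right _ _).trans (min_le_right _ _))
  have hCρ : Real.exp C ≤ ρ1 ^ (-(1 / 2) : ℝ) := by
    have h1 : (Real.exp (-(2 * C))) ^ (-(1 / 2) : ℝ) ≤ ρ1 ^ (-(1 / 2) : ℝ) :=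
      Real.rpow_le_rpow_of_nonpos hρp hee (by norm_num)
    have h2 : (Real.exp (-(2 * C))) ^ (-(1 / 2) : ℝ) = Real.exp C := by
      rw [← Real.exp_mul]
      congr 1
      ring
    rwa [h2] at h1
  have hC3' : C3 * ρ1 ^ (1 / 2 : ℝ) ≤ δ := by
    have h1 : ρ1 ^ (1 / 2 : ℝ) ≤ δ / C3 := by
      rw [← Real.sqrt_eq_rpow]
      refine (Real.sqrt_le_sqrt hdd).trans ?_
      rw [Real.sqrt_sq (by positivity)]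
    have h2 : C3 * ρ1 ^ (1 / 2 : ℝ) ≤ C3 * (δ / C3) := mul_le_mul_of_nonneg_left h1 (by linarith)
    rwa [mul_div_cancel₀ _ (by linarith : C3 ≠ 0)] at h2
  have hCe : C * e1 ≤ δ := by
    have h1 : C * e1 ≤ C * (δ / C) := mul_le_mul_of_nonneg_left he1 (by linarith)
    rwa [mul_div_cancel₀ _ (by linarith : C ≠ 0)] at h1
  have he11 : e1 ≤ 1 := by nlinarith
  obtain ⟨s', hs0', hs1', hf', -, hn'⟩ := hst'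
  obtain ⟨s'', hs0'', hs1'', hf'', -, hn''⟩ := hst''
  have hfl : ⌊s' / e1⌋₊ = ⌊s'' / e1⌋₊ := by rw [← hf', ← hf'']
  have key : ∀ x y : ℝ, 0 ≤ x → 0 ≤ y → ⌊x / e1⌋₊ = ⌊y / e1⌋₊ → y - x < e1 := by
    intro x y hx hy hxy
    have h1 : (⌊x / e1⌋₊ : ℝ) ≤ x / e1 := Nat.floor_le (by positivity)
    have h2 : y / e1 < ⌊y / e1⌋₊ + 1 := Nat.lt_floor_add_one _
    rw [← hxy] at h2
    rw [le_div_iff₀ he0] at h1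
    rw [div_lt_iff₀ he0] at h2
    nlinarith
  obtain ⟨-, hmono, -, hinv, -⟩ := id hBOXN
  rcases le_total s' s'' with hss | hss
  · exact hmono _ _ _ hδ2 (RCLN_main hFLBN hBOXN hΓ hD hC hδ0 hδ1 hC3' hCe he11 he0 hCρ c1 c2 c3 ht hr0 hr hw hw' hw'' hΛ hΛt hΛC hv0 hv hiv
      hs0' hss hs1'' (key s' s'' hs0' hs0'' hfl) hn' hn'')
  · have h1 := RCLN_main hFLBN hBOXN hΓ hD hC hδ0 hδ1 hC3' hCe he11 he0 hCρ c1 c2 c3 ht hr0 hr hw hw'' hw' hΛ hΛt hΛC hv0 hv hiv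
      hs0'' hss hs1' (key s'' s' hs0'' hs0' hfl.symm) hn'' hn'
    have h2 := hinv _ _ (hmono _ _ _ hδ2 h1)
    rwa [mul_inv_rev, inv_inv] at h2

end

end Pool.Agent.VN
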